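import Mathlib
import Pool.Agent.Results.MP_93ce62_an.PairsNoBAI

/-!
The finite-dimensional algebras and their `c₀` sum of the starting file `PairsNoBAI` of
MP_93ce62_an, with a parameter `m`, the number of elements that can be factored uniformly. The
sections `FiniteNorm`, `Instances` and `CZero` follow that file; new are the parameter `m`,
`tuple_factor`, `N_one_le` and `tuples_czero`.
-/

set_option autoImplicit false

namespace Pool.Agent.Y644.FB

open Pool.Agent.Results.MP_93ce62_an.PairsNoBAI (Vtx gen gen_div sum_ne_zero len len_add len_zero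
  len_div)

/-- The combinatorial input: a finite abelian group with a submultiplicative weight. -/
structure Data where
  m : ℕ
  η : ℝ
  η_pos : 0 < η
  Γ : Type
  grp : AddCommGroup Γ
  fin : Fintype Γ
  ω : Γ → ℝ
  K : ℝ
  one_le : ∀ γ, 1 ≤ ω γ
  add_le : ∀ γ δ, ω (γ + δ) ≤ ω γ * ω δ
  zero_eq : ω 0 = K
  div : ∀ T : Finset Γ, (T.card : ℝ) ≤ m * (K ^ 2 / η ^ 2) →
    ∃ δ, ω δ ≤ 1 + η ∧ ∀ γ ∈ T, ω (γ - δ) ≤ ω γ

attribute [instance] Data.grp Data.fin

theorem exists_data (g : ℕ) (hg : 2 ≤ g) (m : ℕ) (η : ℝ) (hη : 0 < η) :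
    ∃ D : Data, D.K = (1 + η) ^ g ∧ D.m = m ∧ D.η = η := by
  classical
  let L : ℕ := g.factorial
  let p : ℕ := g + 1
  let R : ℕ := ⌈(m : ℝ) * (((1 + η) ^ g) ^ 2 / η ^ 2)⌉₊
  have : NeZero L := ⟨Nat.factorial_ne_zero g⟩
  have : NeZero p := ⟨by omega⟩
  have hL : ∀ m, 1 ≤ m → m < g → m ∣ L := fun m h1 h2 => Nat.dvd_factorial (by omega) h2.le
  have hp : ∀ m : ℕ, 1 ≤ m → m < g → (m : ZMod p) ≠ 0 := by
    intro m h1 h2 h
    rw [ZMod.natCast_eq_zero_iff] at h
    have := Nat.le_of_dvd (by omega) h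
    omega
  have h1η : (1 : ℝ) ≤ 1 + η := by linarith
  let Γ : Type := Vtx L p R → ZMod p
  let G : Set Γ := gen L p R p
  refine ⟨{ m := m, η := η, η_pos := hη, Γ := Γ,
            grp := inferInstanceAs (AddCommGroup (Vtx L p R → ZMod p)),
            fin := inferInstanceAs (Fintype (Vtx L p R → ZMod p)),
            ω := fun γ => (1 + η) ^ (len G g γ), K := (1 + η) ^ g, one_le := ?_, add_le := ?_,
            zero_eq := ?_, div := ?_ }, rfl, rfl, rfl⟩
  · intro γ
    exact one_le_pow₀ h1η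
  · intro γ δ
    rw [← pow_add]
    exact pow_le_pow_right₀ h1η (len_add γ δ)
  · show (1 + η : ℝ) ^ (len G g 0) = (1 + η) ^ g
    rw [len_zero (by omega) (fun l hl h1 h2 => sum_ne_zero hL hp hp l hl h1 h2)]
  · intro T hT
    have hT2 : T.card ≤ R := by
      have h1 : (T.card : ℝ) ≤ (R : ℝ) := hT.trans (Nat.le_ceil _)
      exact_mod_cast h1
    obtain ⟨δ, h1, h2⟩ := len_div (G := G) (g := g) (R := R) (by omega)
      (fun T hT hTG => gen_div hg hL hp T hT hTG) T hT2
    refine ⟨δ, ?_, fun γ hγ => pow_le_pow_right₀ h1η (h2 γ hγ)⟩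
    calc (1 + η : ℝ) ^ (len G g δ) ≤ (1 + η) ^ 1 := pow_le_pow_right₀ h1η h1
      _ = 1 + η := pow_one _


section FiniteNorm

open Finset

variable (D : Data)

/-- The points of the finite algebra: the dual group. -/
abbrev Pt : Type := AddChar D.Γ ℂ

variable {D}

/-- Weighted `ℓ¹` norm of a coefficient family. -/
noncomputable def W (h : D.Γ → ℂ) : ℝ := ∑ γ, ‖h γ‖ * D.ω γ

/-- The function on the dual group with coefficients `h`. -/
noncomputable def T (h : D.Γ → ℂ) : Pt D → ℂ := fun s => ∑ γ, h γ * s γ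

/-- The mean of the absolute value. -/
noncomputable def av (f : Pt D → ℂ) : ℝ := (∑ s, ‖f s‖) / (Fintype.card (Pt D) : ℝ)

/-- The solid norm. -/
noncomputable def sol (f : Pt D → ℂ) : ℝ := max ‖f‖ (D.K * av f)

/-- The norm of the finite algebra. -/
noncomputable def N (f : Pt D → ℂ) : ℝ := ⨅ h : D.Γ → ℂ, (W h + sol (f - T h))

theorem K_pos : 0 < D.K := by
  have := D.one_le 0
  rw [D.zero_eq] at this
  linarith

theorem ω_pos (γ : D.Γ) : 0 < D.ω γ := lt_of_lt_of_le one_pos (D.one_le γ)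

theorem card_pos' : (0 : ℝ) < (Fintype.card (Pt D) : ℝ) := by
  exact_mod_cast Fintype.card_pos

theorem W_nonneg (h : D.Γ → ℂ) : 0 ≤ W h :=
  sum_nonneg fun γ _ => mul_nonneg (norm_nonneg _) (ω_pos γ).le

theorem W_add_le (h k : D.Γ → ℂ) : W (h + k) ≤ W h + W k := by
  unfold W
  rw [← sum_add_distrib]
  refine sum_le_sum fun γ _ => ?_
  rw [← add_mul]
  exact mul_le_mul_of_nonneg_right (norm_add_le _ _) (ω_pos γ).le

theorem W_smul (c : ℂ) (h : D.Γ → ℂ) : W (c • h) = ‖c‖ * W h := by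
  unfold W
  rw [mul_sum]
  refine sum_congr rfl fun γ _ => ?_
  rw [Pi.smul_apply, norm_smul]
  ring

theorem T_add (h k : D.Γ → ℂ) : T (h + k) = T h + T k := by
  funext s
  simp [T, add_mul, sum_add_distrib]

theorem T_smul (c : ℂ) (h : D.Γ → ℂ) : T (c • h) = c • T h := by
  funext s
  simp [T, mul_sum, mul_assoc]

theorem norm_char (s : Pt D) (γ : D.Γ) : ‖s γ‖ = 1 := s.norm_apply γ

theorem norm_T_le (h : D.Γ → ℂ) : ‖T h‖ ≤ W h := by
  rw [pi_norm_le_iff_of_nonneg (W_nonneg h)]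
  intro s
  refine (norm_sum_le _ _).trans (sum_le_sum fun γ _ => ?_)
  rw [norm_mul, norm_char, mul_one]
  exact le_mul_of_one_le_right (norm_nonneg _) (D.one_le γ)

/-- Convolution of coefficients. -/
noncomputable def conv (h k : D.Γ → ℂ) : D.Γ → ℂ := fun γ => ∑ δ, h δ * k (γ - δ)

theorem W_conv_le (h k : D.Γ → ℂ) : W (conv h k) ≤ W h * W k := by
  unfold W conv
  calc ∑ γ, ‖∑ δ, h δ * k (γ - δ)‖ * D.ω γ
      ≤ ∑ γ, ∑ δ, (‖h δ‖ * D.ω δ) * (‖k (γ - δ)‖ * D.ω (γ - δ)) := by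
        refine sum_le_sum fun γ _ => ?_
        calc ‖∑ δ, h δ * k (γ - δ)‖ * D.ω γ ≤ (∑ δ, ‖h δ * k (γ - δ)‖) * D.ω γ :=
              mul_le_mul_of_nonneg_right (norm_sum_le _ _) (ω_pos γ).le
          _ = ∑ δ, ‖h δ * k (γ - δ)‖ * D.ω γ := sum_mul _ _ _
          _ ≤ _ := by
            refine sum_le_sum fun δ _ => ?_
            have h1 : D.ω γ ≤ D.ω δ * D.ω (γ - δ) := by
              have := D.add_le δ (γ - δ)
              rwa [add_sub_cancel] at this
            rw [norm_mul]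
            calc ‖h δ‖ * ‖k (γ - δ)‖ * D.ω γ ≤ ‖h δ‖ * ‖k (γ - δ)‖ * (D.ω δ * D.ω (γ - δ)) :=
                  mul_le_mul_of_nonneg_left h1 (by positivity)
              _ = _ := by ring
    _ = ∑ δ, ∑ γ, (‖h δ‖ * D.ω δ) * (‖k (γ - δ)‖ * D.ω (γ - δ)) := sum_comm
    _ = ∑ δ, (‖h δ‖ * D.ω δ) * ∑ γ, ‖k γ‖ * D.ω γ := by
        refine sum_congr rfl fun δ _ => ?_
        rw [← mul_sum]
        congr 1
        exact Equiv.sum_comp (Equiv.subRight δ) (fun γ => ‖k γ‖ * D.ω γ)
    _ = _ := (sum_mul _ _ _).symm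

theorem T_conv (h k : D.Γ → ℂ) : T (conv h k) = T h * T k := by
  funext s
  show ∑ γ, (∑ δ, h δ * k (γ - δ)) * s γ = (∑ γ, h γ * s γ) * (∑ γ, k γ * s γ)
  calc ∑ γ, (∑ δ, h δ * k (γ - δ)) * s γ
      = ∑ γ, ∑ δ, (h δ * s δ) * (k (γ - δ) * s (γ - δ)) := by
        refine sum_congr rfl fun γ _ => ?_
        rw [sum_mul]
        refine sum_congr rfl fun δ _ => ?_
        have h1 : s γ = s δ * s (γ - δ) := by
          rw [← AddChar.map_add_eq_mul, add_sub_cancel]
        rw [h1]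
        ring
    _ = ∑ δ, ∑ γ, (h δ * s δ) * (k (γ - δ) * s (γ - δ)) := sum_comm
    _ = ∑ δ, (h δ * s δ) * ∑ γ, k γ * s γ := by
        refine sum_congr rfl fun δ _ => ?_
        rw [← mul_sum]
        congr 1
        exact Equiv.sum_comp (Equiv.subRight δ) (fun γ => k γ * s γ)
    _ = _ := (sum_mul _ _ _).symm

theorem parseval (h : D.Γ → ℂ) :
    ∑ s : Pt D, ‖T h s‖ ^ 2 = (Fintype.card D.Γ : ℝ) * ∑ γ, ‖h γ‖ ^ 2 := by
  classical
  have key : ∑ s : Pt D, (T h s * (starRingEnd ℂ) (T h s)) =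
      (Fintype.card D.Γ : ℂ) * ∑ γ, h γ * (starRingEnd ℂ) (h γ) := by
    calc ∑ s : Pt D, (T h s * (starRingEnd ℂ) (T h s))
        = ∑ s : Pt D, ∑ γ, ∑ δ, (h γ * (starRingEnd ℂ) (h δ)) * s (γ - δ) := by
          refine sum_congr rfl fun s _ => ?_
          unfold T
          rw [map_sum, sum_mul_sum]
          refine sum_congr rfl fun γ _ => sum_congr rfl fun δ _ => ?_
          rw [map_mul, ← AddChar.map_neg_eq_conj, sub_eq_add_neg, AddChar.map_add_eq_mul]
          ring
      _ = ∑ γ, ∑ δ, (h γ * (starRingEnd ℂ) (h δ)) * ∑ s : Pt D, s (γ - δ) := by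
          rw [sum_comm]
          refine sum_congr rfl fun γ _ => ?_
          rw [sum_comm]
          refine sum_congr rfl fun δ _ => ?_
          rw [mul_sum]
      _ = ∑ γ, (h γ * (starRingEnd ℂ) (h γ)) * (Fintype.card D.Γ : ℂ) := by
          refine sum_congr rfl fun γ _ => ?_
          rw [sum_eq_single γ]
          · rw [AddChar.sum_apply_eq_ite, if_pos (sub_self γ)]
          · intro δ _ hδ
            rw [AddChar.sum_apply_eq_ite, if_neg (sub_ne_zero.mpr hδ.symm), mul_zero]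
          · intro hh
            exact absurd (mem_univ γ) hh
      _ = _ := by
          rw [← sum_mul, mul_comm]
  have h2 : ∀ z : ℂ, z * (starRingEnd ℂ) z = ((‖z‖ ^ 2 : ℝ) : ℂ) := by
    intro z
    rw [Complex.mul_conj, Complex.normSq_eq_norm_sq]
  simp only [h2] at key
  exact_mod_cast key

theorem card_pt : (Fintype.card (Pt D) : ℝ) = (Fintype.card D.Γ : ℝ) := by
  have h := AddChar.card_eq (α := D.Γ)
  exact_mod_cast h

theorem av_nonneg (f : Pt D → ℂ) : 0 ≤ av f :=
  div_nonneg (sum_nonneg fun _ _ => norm_nonneg _) card_pos'.le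

theorem av_T_sq_le (h : D.Γ → ℂ) : (av (T h)) ^ 2 ≤ ∑ γ, ‖h γ‖ ^ 2 := by
  have h1 := parseval h
  have h2 : (∑ s : Pt D, ‖T h s‖) ^ 2 ≤ (Fintype.card (Pt D) : ℝ) * ∑ s : Pt D, ‖T h s‖ ^ 2 := by
    have := sq_sum_le_card_mul_sum_sq (s := (univ : Finset (Pt D))) (f := fun s => ‖T h s‖)
    simpa using this
  unfold av
  rw [div_pow, div_le_iff₀ (by have := card_pos' (D := D); positivity)]
  rw [h1, ← card_pt] at h2
  calc (∑ s : Pt D, ‖T h s‖) ^ 2 ≤ _ := h2
    _ = _ := by ring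

theorem sol_nonneg (f : Pt D → ℂ) : 0 ≤ sol f := (norm_nonneg f).trans (le_max_left _ _)

theorem av_add_le (f k : Pt D → ℂ) : av (f + k) ≤ av f + av k := by
  unfold av
  rw [← add_div]
  refine div_le_div_of_nonneg_right ?_ card_pos'.le
  rw [← sum_add_distrib]
  exact sum_le_sum fun s _ => norm_add_le _ _

theorem av_smul (c : ℂ) (f : Pt D → ℂ) : av (c • f) = ‖c‖ * av f := by
  unfold av
  rw [mul_div_assoc', mul_sum]
  congr 1
  refine sum_congr rfl fun s _ => ?_
  rw [Pi.smul_apply, norm_smul]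

theorem av_mul_le (f k : Pt D → ℂ) : av (f * k) ≤ ‖f‖ * av k := by
  unfold av
  rw [mul_div_assoc', mul_sum]
  refine div_le_div_of_nonneg_right ?_ card_pos'.le
  refine sum_le_sum fun s _ => ?_
  rw [Pi.mul_apply, norm_mul]
  exact mul_le_mul_of_nonneg_right (norm_le_pi_norm f s) (norm_nonneg _)

theorem sol_add_le (f k : Pt D → ℂ) : sol (f + k) ≤ sol f + sol k := by
  refine max_le ((norm_add_le _ _).trans (add_le_add (le_max_left _ _) (le_max_left _ _))) ?_
  calc D.K * av (f + k) ≤ D.K * (av f + av k) :=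
        mul_le_mul_of_nonneg_left (av_add_le f k) K_pos.le
    _ = D.K * av f + D.K * av k := by ring
    _ ≤ _ := add_le_add (le_max_right _ _) (le_max_right _ _)

theorem sol_smul (c : ℂ) (f : Pt D → ℂ) : sol (c • f) = ‖c‖ * sol f := by
  unfold sol
  rw [norm_smul, av_smul, mul_max_of_nonneg _ _ (norm_nonneg c)]
  congr 1
  ring

theorem sol_mul_le (f k : Pt D → ℂ) : sol (f * k) ≤ ‖f‖ * sol k := by
  refine max_le ((norm_mul_le _ _).trans
    (mul_le_mul_of_nonneg_left (le_max_left _ _) (norm_nonneg _))) ?_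
  calc D.K * av (f * k) ≤ D.K * (‖f‖ * av k) :=
        mul_le_mul_of_nonneg_left (av_mul_le f k) K_pos.le
    _ = ‖f‖ * (D.K * av k) := by ring
    _ ≤ _ := mul_le_mul_of_nonneg_left (le_max_right _ _) (norm_nonneg _)

theorem bdd (f : Pt D → ℂ) : BddBelow (Set.range fun h : D.Γ → ℂ => W h + sol (f - T h)) :=
  ⟨0, by rintro _ ⟨h, rfl⟩; exact add_nonneg (W_nonneg _) (sol_nonneg _)⟩

theorem N_le (f : Pt D → ℂ) (h : D.Γ → ℂ) : N f ≤ W h + sol (f - T h) := ciInf_le (bdd f) h

theorem N_le' (h : D.Γ → ℂ) (k : Pt D → ℂ) : N (T h + k) ≤ W h + sol k := by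
  have := N_le (T h + k) h
  rwa [add_sub_cancel_left] at this

theorem N_nonneg (f : Pt D → ℂ) : 0 ≤ N f :=
  le_ciInf fun _ => add_nonneg (W_nonneg _) (sol_nonneg _)

theorem exists_rep (f : Pt D → ℂ) {r : ℝ} (hr : N f < r) :
    ∃ (h : D.Γ → ℂ) (k : Pt D → ℂ), f = T h + k ∧ W h + sol k < r := by
  obtain ⟨h, hh⟩ := exists_lt_of_ciInf_lt hr
  exact ⟨h, f - T h, by abel, hh⟩

theorem N_add_le (f k : Pt D → ℂ) : N (f + k) ≤ N f + N k := by
  refine le_of_forall_pos_le_add fun ε hε => ?_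
  obtain ⟨h1, k1, e1, l1⟩ := exists_rep f (show N f < N f + ε / 2 by linarith)
  obtain ⟨h2, k2, e2, l2⟩ := exists_rep k (show N k < N k + ε / 2 by linarith)
  have h3 : f + k = T (h1 + h2) + (k1 + k2) := by
    conv_lhs => rw [e1, e2]
    rw [T_add]
    abel
  calc N (f + k) = N (T (h1 + h2) + (k1 + k2)) := by rw [h3]
    _ ≤ W (h1 + h2) + sol (k1 + k2) := N_le' _ _
    _ ≤ (W h1 + W h2) + (sol k1 + sol k2) := add_le_add (W_add_le _ _) (sol_add_le _ _)
    _ ≤ N f + N k + ε := by linarith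

theorem N_smul_le (c : ℂ) (f : Pt D → ℂ) : N (c • f) ≤ ‖c‖ * N f := by
  refine le_of_forall_pos_le_add fun ε hε => ?_
  have hc : 0 < ‖c‖ + 1 := by positivity
  obtain ⟨h1, k1, e1, l1⟩ := exists_rep f (show N f < N f + ε / (‖c‖ + 1) by
    have : 0 < ε / (‖c‖ + 1) := by positivity
    linarith)
  have h3 : c • f = T (c • h1) + c • k1 := by
    conv_lhs => rw [e1]
    rw [T_smul, smul_add]
  calc N (c • f) = N (T (c • h1) + c • k1) := by rw [h3]
    _ ≤ W (c • h1) + sol (c • k1) := N_le' _ _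
    _ = ‖c‖ * (W h1 + sol k1) := by rw [W_smul, sol_smul]; ring
    _ ≤ ‖c‖ * (N f + ε / (‖c‖ + 1)) := mul_le_mul_of_nonneg_left l1.le (norm_nonneg _)
    _ = ‖c‖ * N f + ε * (‖c‖ / (‖c‖ + 1)) := by ring
    _ ≤ ‖c‖ * N f + ε * 1 := by
        have : ‖c‖ / (‖c‖ + 1) ≤ 1 := by
          rw [div_le_one hc]
          linarith
        have h5 := mul_le_mul_of_nonneg_left this hε.le
        linarith
    _ = _ := by ring

theorem norm_le_N (f : Pt D → ℂ) : ‖f‖ ≤ N f := by
  refine le_of_forall_pos_le_add fun ε hε => ?_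
  obtain ⟨h1, k1, e1, l1⟩ := exists_rep f (show N f < N f + ε by linarith)
  calc ‖f‖ = ‖T h1 + k1‖ := by rw [← e1]
    _ ≤ ‖T h1‖ + ‖k1‖ := norm_add_le _ _
    _ ≤ W h1 + sol k1 := add_le_add (norm_T_le _) (le_max_left _ _)
    _ ≤ _ := l1.le

theorem N_zero : N (0 : Pt D → ℂ) = 0 := by
  apply le_antisymm _ (N_nonneg _)
  have := N_smul_le 0 (0 : Pt D → ℂ)
  simpa using this

theorem N_mul_le (f k : Pt D → ℂ) : N (f * k) ≤ N f * N k := by
  have key : ∀ ε : ℝ, 0 < ε → N (f * k) ≤ (N f + ε) * (N k + ε) := by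
    intro ε hε
    obtain ⟨h1, k1, e1, l1⟩ := exists_rep f (show N f < N f + ε by linarith)
    obtain ⟨h2, k2, e2, l2⟩ := exists_rep k (show N k < N k + ε by linarith)
    have h3 : f * k = T (conv h1 h2) + (T h1 * k2 + (T h2 * k1 + k1 * k2)) := by
      conv_lhs => rw [e1, e2]
      rw [T_conv]
      ring
    have h4 : sol (T h1 * k2 + (T h2 * k1 + k1 * k2)) ≤
        W h1 * sol k2 + (W h2 * sol k1 + sol k1 * sol k2) := by
      refine (sol_add_le _ _).trans (add_le_add ?_ ((sol_add_le _ _).trans (add_le_add ?_ ?_)))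
      · exact (sol_mul_le _ _).trans (mul_le_mul_of_nonneg_right (norm_T_le _) (sol_nonneg _))
      · exact (sol_mul_le _ _).trans (mul_le_mul_of_nonneg_right (norm_T_le _) (sol_nonneg _))
      · exact (sol_mul_le _ _).trans (mul_le_mul_of_nonneg_right (le_max_left _ _) (sol_nonneg _))
    calc N (f * k) = N (T (conv h1 h2) + (T h1 * k2 + (T h2 * k1 + k1 * k2))) := by rw [h3]
      _ ≤ W (conv h1 h2) + sol (T h1 * k2 + (T h2 * k1 + k1 * k2)) := N_le' _ _
      _ ≤ W h1 * W h2 + (W h1 * sol k2 + (W h2 * sol k1 + sol k1 * sol k2)) :=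
          add_le_add (W_conv_le _ _) h4
      _ = (W h1 + sol k1) * (W h2 + sol k2) := by ring
      _ ≤ (N f + ε) * (N k + ε) :=
          mul_le_mul l1.le l2.le (add_nonneg (W_nonneg _) (sol_nonneg _))
            (by have := N_nonneg f; linarith)
  have hlim : Filter.Tendsto (fun ε : ℝ => (N f + ε) * (N k + ε)) (nhdsWithin 0 (Set.Ioi 0))
      (nhds ((N f + 0) * (N k + 0))) := by
    apply Filter.Tendsto.mono_left _ nhdsWithin_le_nhds
    exact ((continuous_const.add continuous_id).mul (continuous_const.add continuous_id)).tendsto 0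
  rw [add_zero, add_zero] at hlim
  refine ge_of_tendsto hlim ?_
  filter_upwards [self_mem_nhdsWithin] with ε hε
  exact key ε hε

theorem K_le_N_one : D.K ≤ N (1 : Pt D → ℂ) := by
  classical
  refine le_ciInf fun h => ?_
  have hcard := card_pos' (D := D)
  have h1 : ∑ s : Pt D, (T h s) = (Fintype.card (Pt D) : ℂ) * h 0 := by
    unfold T
    rw [sum_comm]
    have : ∀ γ, ∑ s : Pt D, h γ * s γ = if γ = 0 then (Fintype.card D.Γ : ℂ) * h 0 else 0 := by
      intro γ
      rw [← mul_sum, AddChar.sum_apply_eq_ite]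
      by_cases hγ : γ = 0
      · simp [hγ, mul_comm]
      · simp [hγ]
    rw [sum_congr rfl fun γ _ => this γ, sum_ite_eq' univ (0 : D.Γ), if_pos (mem_univ _)]
    congr 1
    have := card_pt (D := D)
    exact_mod_cast this.symm
  have h2 : (Fintype.card (Pt D) : ℝ) ≤
      (Fintype.card (Pt D) : ℝ) * ‖h 0‖ + ∑ s : Pt D, ‖(1 - T h) s‖ := by
    have h3 : (Fintype.card (Pt D) : ℂ) = (Fintype.card (Pt D) : ℂ) * h 0 +
        ∑ s : Pt D, (1 - T h) s := by
      rw [← h1, ← sum_add_distrib]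
      simp
    calc (Fintype.card (Pt D) : ℝ) = ‖(Fintype.card (Pt D) : ℂ)‖ := by simp
      _ = ‖(Fintype.card (Pt D) : ℂ) * h 0 + ∑ s : Pt D, (1 - T h) s‖ := by rw [← h3]
      _ ≤ ‖(Fintype.card (Pt D) : ℂ) * h 0‖ + ‖∑ s : Pt D, (1 - T h) s‖ := norm_add_le _ _
      _ ≤ _ := by
        refine add_le_add ?_ (norm_sum_le _ _)
        rw [norm_mul]
        simp
  have h4 : 1 ≤ ‖h 0‖ + av (1 - T h) := by
    unfold av
    have h5 : (∑ s : Pt D, ‖(1 - T h) s‖) / (Fintype.card (Pt D) : ℝ) * (Fintype.card (Pt D) : ℝ) =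
        ∑ s : Pt D, ‖(1 - T h) s‖ := div_mul_cancel₀ _ hcard.ne'
    by_contra hlt
    push Not at hlt
    have := mul_lt_mul_of_pos_right hlt hcard
    rw [add_mul, h5] at this
    linarith
  calc D.K = D.K * 1 := (mul_one _).symm
    _ ≤ D.K * (‖h 0‖ + av (1 - T h)) := mul_le_mul_of_nonneg_left h4 K_pos.le
    _ = ‖h 0‖ * D.ω 0 + D.K * av (1 - T h) := by rw [D.zero_eq]; ring
    _ ≤ W h + sol (1 - T h) := by
        refine add_le_add ?_ (le_max_right _ _)
        unfold W
        exact single_le_sum (f := fun γ => ‖h γ‖ * D.ω γ)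
          (fun γ _ => mul_nonneg (norm_nonneg _) (ω_pos γ).le) (mem_univ 0)

/-- The unimodular function attached to a group element. -/
noncomputable def u (γ : D.Γ) : Pt D → ℂ := fun s => s γ

theorem u_mul_neg (γ : D.Γ) : u γ * u (-γ) = (1 : Pt D → ℂ) := by
  funext s
  show s γ * s (-γ) = 1
  rw [← AddChar.map_add_eq_mul, add_neg_cancel, AddChar.map_zero_eq_one]

theorem norm_u_le (γ : D.Γ) : ‖(u γ : Pt D → ℂ)‖ ≤ 1 := by
  rw [pi_norm_le_iff_of_nonneg zero_le_one]
  intro s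
  exact (norm_char s γ).le

theorem N_u_le (γ : D.Γ) : N (u γ : Pt D → ℂ) ≤ D.ω γ := by
  classical
  have h1 : (u γ : Pt D → ℂ) = T (Pi.single γ 1) + 0 := by
    funext s
    simp [u, T, Pi.single_apply]
  rw [h1]
  refine (N_le' _ _).trans ?_
  have h2 : sol (0 : Pt D → ℂ) = 0 := by
    simp [sol, av]
  have h3 : W (Pi.single γ (1 : ℂ)) = D.ω γ := by
    unfold W
    rw [sum_eq_single γ]
    · simp
    · intro δ _ hδ
      rw [Pi.single_eq_of_ne hδ]
      simp
    · intro hh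
      exact absurd (mem_univ γ) hh
  rw [h2, h3, add_zero]

theorem div_lemma (f : Pt D → ℂ) : ∃ A : Finset D.Γ, (A.card : ℝ) ≤ D.K ^ 2 / D.η ^ 2 ∧
    ∀ δ, (∀ γ ∈ A, D.ω (γ - δ) ≤ D.ω γ) → N (f * u (-δ)) ≤ (1 + D.η) ^ 2 * N f := by
  classical
  have hη := D.η_pos
  rcases (N_nonneg f).eq_or_lt with h0 | h0
  · refine ⟨∅, by simp; positivity, fun δ _ => ?_⟩
    have h1 : ‖f‖ ≤ 0 := by rw [h0]; exact norm_le_N f
    have h2 : f = 0 := norm_le_zero_iff.mp h1
    rw [h2, zero_mul, N_zero]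
    simp
  set ρ := (1 + D.η) * N f with hρ
  have hρpos : 0 < ρ := by positivity
  have hK := K_pos (D := D)
  obtain ⟨h, k, e, l⟩ := exists_rep f (show N f < ρ by rw [hρ]; nlinarith)
  have hW : W h ≤ ρ := by have := sol_nonneg k; linarith
  set θ := D.η ^ 2 * ρ / D.K ^ 2 with hθdef
  have hθ : 0 < θ := by positivity
  let A : Finset D.Γ := univ.filter fun γ => θ ≤ ‖h γ‖ * D.ω γ
  refine ⟨A, ?_, ?_⟩
  · have h1 : (A.card : ℝ) * θ ≤ W h := by
      calc (A.card : ℝ) * θ = ∑ _γ ∈ A, θ := by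
            rw [sum_const, nsmul_eq_mul]
        _ ≤ ∑ γ ∈ A, ‖h γ‖ * D.ω γ := sum_le_sum fun γ hγ => (mem_filter.mp hγ).2
        _ ≤ W h := sum_le_sum_of_subset_of_nonneg (subset_univ _)
            fun γ _ _ => mul_nonneg (norm_nonneg _) (ω_pos γ).le
    have h2 : (A.card : ℝ) * θ ≤ ρ := h1.trans hW
    rw [hθdef, mul_div_assoc', div_le_iff₀ (by positivity)] at h2
    rw [le_div_iff₀ (by positivity)]
    have h3 : ρ * ((A.card : ℝ) * D.η ^ 2) ≤ ρ * D.K ^ 2 := by linarith
    exact le_of_mul_le_mul_left h3 hρpos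
  · intro δ hδ
    let hA : D.Γ → ℂ := fun γ => if γ ∈ A then h γ else 0
    let hB : D.Γ → ℂ := fun γ => if γ ∈ A then 0 else h γ
    have hAB : h = hA + hB := by
      funext γ
      by_cases hγ : γ ∈ A <;> simp [hA, hB, hγ]
    let hC : D.Γ → ℂ := fun γ => hA (γ + δ)
    have hTC : T hA * u (-δ) = T hC := by
      funext s
      show (∑ γ, hA γ * s γ) * s (-δ) = ∑ γ, hA (γ + δ) * s γ
      rw [sum_mul, ← Equiv.sum_comp (Equiv.addRight δ) (fun γ => hA γ * s γ * s (-δ))]
      refine sum_congr rfl fun γ _ => ?_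
      show hA (γ + δ) * s (γ + δ) * s (-δ) = hA (γ + δ) * s γ
      rw [mul_assoc, ← AddChar.map_add_eq_mul, add_neg_cancel_right]
    have hWC : W hC ≤ W hA := by
      unfold W
      rw [← Equiv.sum_comp (Equiv.subRight δ)]
      refine sum_le_sum fun γ _ => ?_
      show ‖hA (γ - δ + δ)‖ * D.ω (γ - δ) ≤ ‖hA γ‖ * D.ω γ
      rw [sub_add_cancel]
      by_cases hγ : γ ∈ A
      · simp only [hA, if_pos hγ]
        exact mul_le_mul_of_nonneg_left (hδ γ hγ) (norm_nonneg _)
      · simp only [hA, if_neg hγ, norm_zero, zero_mul]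
        exact le_rfl
    have hWAB : W hA + W hB = W h := by
      unfold W
      rw [← sum_add_distrib]
      refine sum_congr rfl fun γ _ => ?_
      by_cases hγ : γ ∈ A <;> simp [hA, hB, hγ]
    have hBθ : ∀ γ, ‖hB γ‖ * D.ω γ ≤ θ := by
      intro γ
      by_cases hγ : γ ∈ A
      · simp only [hB, if_pos hγ, norm_zero, zero_mul]
        exact hθ.le
      · simp only [hB, if_neg hγ]
        by_contra hlt
        push Not at hlt
        exact hγ (mem_filter.mpr ⟨mem_univ _, hlt.le⟩)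
    have hWB : W hB ≤ ρ := by have := W_nonneg hA; linarith
    have hsq : ∑ γ, ‖hB γ‖ ^ 2 ≤ (D.η * ρ / D.K) ^ 2 := by
      calc ∑ γ, ‖hB γ‖ ^ 2 ≤ ∑ γ, θ * (‖hB γ‖ * D.ω γ) := by
            refine sum_le_sum fun γ _ => ?_
            have h1 : ‖hB γ‖ ≤ ‖hB γ‖ * D.ω γ :=
              le_mul_of_one_le_right (norm_nonneg _) (D.one_le γ)
            calc ‖hB γ‖ ^ 2 = ‖hB γ‖ * ‖hB γ‖ := sq _
              _ ≤ θ * (‖hB γ‖ * D.ω γ) :=
                mul_le_mul (h1.trans (hBθ γ)) h1 (norm_nonneg _) hθ.le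
        _ = θ * W hB := (mul_sum _ _ _).symm
        _ ≤ θ * ρ := mul_le_mul_of_nonneg_left hWB hθ.le
        _ = _ := by rw [hθdef]; ring
    have hav : av (T hB) ≤ D.η * ρ / D.K :=
      abs_le_of_sq_le_sq' ((av_T_sq_le hB).trans hsq) (by positivity) |>.2
    have hsolB : sol (T hB) ≤ W hB + D.η * ρ := by
      refine max_le ((norm_T_le _).trans (le_add_of_nonneg_right (by positivity))) ?_
      have hWB0 := W_nonneg hB
      calc D.K * av (T hB) ≤ D.K * (D.η * ρ / D.K) := mul_le_mul_of_nonneg_left hav hK.le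
        _ = D.η * ρ := by field_simp
        _ ≤ _ := by linarith
    have h6 : f * u (-δ) = T hC + (u (-δ) * (T hB + k)) := by
      conv_lhs => rw [e, hAB, T_add]
      rw [← hTC]
      ring
    calc N (f * u (-δ)) = N (T hC + (u (-δ) * (T hB + k))) := by rw [h6]
      _ ≤ W hC + sol (u (-δ) * (T hB + k)) := N_le' _ _
      _ ≤ W hA + ((W hB + D.η * ρ) + sol k) := by
          refine add_le_add hWC ((sol_mul_le _ _).trans ?_)
          calc ‖(u (-δ) : Pt D → ℂ)‖ * sol (T hB + k) ≤ 1 * (sol (T hB) + sol k) :=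
                mul_le_mul (norm_u_le _) (sol_add_le _ _) (sol_nonneg _) zero_le_one
            _ ≤ (W hB + D.η * ρ) + sol k := by rw [one_mul]; linarith
      _ ≤ (1 + D.η) * ρ := by linarith
      _ = (1 + D.η) ^ 2 * N f := by rw [hρ]; ring

/-- Uniform factorization of at most `D.m` elements in the finite algebra. -/
theorem tuple_factor {n : ℕ} (hn : n ≤ D.m) (f : Fin n → (Pt D → ℂ)) :
    ∃ (b : Pt D → ℂ) (c : Fin n → (Pt D → ℂ)), N b ≤ 1 + D.η ∧
      ∀ i, f i = b * c i ∧ N (c i) ≤ (1 + D.η) ^ 2 * N (f i) := by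
  classical
  choose A hA hdiv using fun i => div_lemma (f i)
  obtain ⟨δ, hδ, hδA⟩ := D.div (univ.biUnion A) (by
    have h1 : (((univ : Finset (Fin n)).biUnion A).card : ℝ) ≤ ∑ i, ((A i).card : ℝ) := by
      exact_mod_cast card_biUnion_le
    have h2 : ∑ i, ((A i).card : ℝ) ≤ ∑ _i : Fin n, D.K ^ 2 / D.η ^ 2 :=
      sum_le_sum fun i _ => hA i
    rw [sum_const, card_univ, Fintype.card_fin, nsmul_eq_mul] at h2
    have h3 : (n : ℝ) ≤ (D.m : ℝ) := by exact_mod_cast hn
    have h4 : (n : ℝ) * (D.K ^ 2 / D.η ^ 2) ≤ (D.m : ℝ) * (D.K ^ 2 / D.η ^ 2) :=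
      mul_le_mul_of_nonneg_right h3 (by positivity)
    linarith)
  refine ⟨u δ, fun i => f i * u (-δ), (N_u_le δ).trans hδ, fun i => ⟨?_, ?_⟩⟩
  · calc f i = (u δ * u (-δ)) * f i := by rw [u_mul_neg, one_mul]
      _ = u δ * (f i * u (-δ)) := by ring
  · exact hdiv i δ fun γ hγ => hδA γ (mem_biUnion.2 ⟨i, mem_univ i, hγ⟩)

theorem N_one_le : N (1 : Pt D → ℂ) ≤ D.K := by
  have h1 : (1 : Pt D → ℂ) = u 0 := by
    funext s
    show (1 : ℂ) = s 0
    rw [AddChar.map_zero_eq_one]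
  rw [h1]
  exact (N_u_le 0).trans D.zero_eq.le

/-- Factorization of `n` elements with the constant `C`, if either `n ≤ D.m` or `D.K ≤ C`. -/
theorem tuple_factor_const {n : ℕ} {C : ℝ} (hC : (1 + D.η) ^ 3 ≤ C) (h : n ≤ D.m ∨ D.K ≤ C)
    (f : Fin n → (Pt D → ℂ)) :
    ∃ (b : Pt D → ℂ) (c : Fin n → (Pt D → ℂ)), N b ≤ 1 ∧
      ∀ i, f i = b * c i ∧ N (c i) ≤ C * N (f i) := by
  rcases h with h | h
  · obtain ⟨b, c, hb, hc⟩ := tuple_factor h f
    have hη := D.η_pos
    have h1 : (0 : ℝ) < 1 + D.η := by linarith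
    refine ⟨(((1 + D.η)⁻¹ : ℝ) : ℂ) • b, fun i => ((1 + D.η : ℝ) : ℂ) • c i, ?_,
      fun i => ⟨?_, ?_⟩⟩
    · refine (N_smul_le _ _).trans ?_
      rw [Complex.norm_real, Real.norm_of_nonneg (inv_nonneg.2 h1.le)]
      calc (1 + D.η)⁻¹ * N b ≤ (1 + D.η)⁻¹ * (1 + D.η) :=
            mul_le_mul_of_nonneg_left hb (inv_nonneg.2 h1.le)
        _ = 1 := inv_mul_cancel₀ h1.ne'
    · rw [smul_mul_smul_comm, ← Complex.ofReal_mul, inv_mul_cancel₀ h1.ne',
        Complex.ofReal_one, one_smul]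
      exact (hc i).1
    · refine (N_smul_le _ _).trans ?_
      rw [Complex.norm_real, Real.norm_of_nonneg h1.le]
      calc (1 + D.η) * N (c i) ≤ (1 + D.η) * ((1 + D.η) ^ 2 * N (f i)) :=
            mul_le_mul_of_nonneg_left (hc i).2 h1.le
        _ = (1 + D.η) ^ 3 * N (f i) := by ring
        _ ≤ C * N (f i) := mul_le_mul_of_nonneg_right hC (N_nonneg _)
  · have hK := K_pos (D := D)
    have hKC : ((D.K : ℝ) : ℂ) ≠ 0 := by exact_mod_cast hK.ne'
    refine ⟨((D.K⁻¹ : ℝ) : ℂ) • 1, fun i => ((D.K : ℝ) : ℂ) • f i, ?_, fun i => ⟨?_, ?_⟩⟩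
    · refine (N_smul_le _ _).trans ?_
      rw [Complex.norm_real, Real.norm_of_nonneg (inv_nonneg.2 hK.le)]
      calc D.K⁻¹ * N (1 : Pt D → ℂ) ≤ D.K⁻¹ * D.K :=
            mul_le_mul_of_nonneg_left N_one_le (inv_nonneg.2 hK.le)
        _ = 1 := inv_mul_cancel₀ hK.ne'
    · rw [smul_mul_smul_comm, one_mul, ← Complex.ofReal_mul, inv_mul_cancel₀ hK.ne',
        Complex.ofReal_one, one_smul]
    · refine (N_smul_le _ _).trans ?_
      rw [Complex.norm_real, Real.norm_of_nonneg hK.le]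
      exact mul_le_mul_of_nonneg_right h (N_nonneg _)

end FiniteNorm


section Instances

/-- The finite-dimensional algebra of all functions on the dual group, normed by `N`. -/
def Alg (D : Data) : Type := Pt D → ℂ

variable (D : Data)

noncomputable instance instCommRing : CommRing (Alg D) := inferInstanceAs (CommRing (Pt D → ℂ))

noncomputable instance instAlgebra : Algebra ℂ (Alg D) :=
  inferInstanceAs (Algebra ℂ (Pt D → ℂ))

/-- `N` as an additive group norm. -/
noncomputable def addNorm : AddGroupNorm (Alg D) where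
  toFun := fun f => N (D := D) f
  map_zero' := N_zero
  add_le' := N_add_le
  neg' := by
    intro f
    have h : ∀ f : Pt D → ℂ, N (-f) ≤ N f := by
      intro f
      have := N_smul_le (-1) f
      simpa using this
    have h2 : ∀ f : Pt D → ℂ, N (-f) = N f := fun f =>
      le_antisymm (h f) (by simpa using h (-f))
    exact h2 f
  eq_zero_of_map_eq_zero' := by
    intro f hf
    have h1 : ‖(show Pt D → ℂ from f)‖ ≤ 0 := by
      rw [← show N (D := D) f = 0 from hf]
      exact norm_le_N _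
    exact norm_le_zero_iff.mp h1

noncomputable instance instNormedAddCommGroup : NormedAddCommGroup (Alg D) :=
  (addNorm D).toNormedAddCommGroup

theorem norm_def (f : Alg D) : ‖f‖ = N (D := D) f := rfl

noncomputable instance instNonUnitalNormedCommRing : NonUnitalNormedCommRing (Alg D) :=
  { instCommRing D, instNormedAddCommGroup D with
    norm_mul_le := fun f g => N_mul_le (D := D) f g }

noncomputable instance instNormedSpace : NormedSpace ℂ (Alg D) :=
  { (inferInstance : Module ℂ (Alg D)) with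
    norm_smul_le := fun c f => N_smul_le (D := D) c f }

instance instIsScalarTower : IsScalarTower ℂ (Alg D) (Alg D) :=
  ⟨fun r f g => smul_mul_assoc r f g⟩

instance instSMulCommClass : SMulCommClass ℂ (Alg D) (Alg D) :=
  ⟨fun r f g => (mul_smul_comm r f g).symm⟩

instance instFiniteDimensional : FiniteDimensional ℂ (Alg D) :=
  inferInstanceAs (FiniteDimensional ℂ (Pt D → ℂ))

instance instCompleteSpace : CompleteSpace (Alg D) := FiniteDimensional.complete ℂ (Alg D)

end Instances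


section CZero

open Filter Topology

open scoped ENNReal

variable (D : ℕ → Data)

/-- The `ℓ^∞` sum of the finite-dimensional algebras. -/
abbrev Big : Type := lp (fun k => Alg (D k)) ∞

/-- The `c₀` sum of the finite-dimensional algebras. -/
noncomputable def czero : NonUnitalSubalgebra ℂ (Big D) where
  carrier := {a | Tendsto (fun k => ‖a k‖) atTop (𝓝 0)}
  zero_mem' := by
    show Tendsto (fun k => ‖(0 : Big D) k‖) atTop (𝓝 0)
    simp
  add_mem' := by
    intro a b ha hb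
    have ha' : Tendsto (fun k => ‖a k‖) atTop (𝓝 0) := ha
    have hb' : Tendsto (fun k => ‖b k‖) atTop (𝓝 0) := hb
    have h := ha'.add hb'
    rw [add_zero] at h
    exact squeeze_zero (fun k => norm_nonneg _) (fun k => norm_add_le (a k) (b k)) h
  mul_mem' := by
    intro a b ha hb
    have ha' : Tendsto (fun k => ‖a k‖) atTop (𝓝 0) := ha
    have hb' : Tendsto (fun k => ‖b k‖) atTop (𝓝 0) := hb
    have h := ha'.mul hb'
    rw [mul_zero] at h
    exact squeeze_zero (fun k => norm_nonneg _) (fun k => norm_mul_le (a k) (b k)) h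
  smul_mem' := by
    intro c a ha
    have ha' : Tendsto (fun k => ‖a k‖) atTop (𝓝 0) := ha
    have h := ha'.const_mul ‖c‖
    rw [mul_zero] at h
    exact squeeze_zero (fun k => norm_nonneg _) (fun k => norm_smul_le c (a k)) h

variable {D}

theorem mem_czero {a : Big D} : a ∈ czero D ↔ Tendsto (fun k => ‖a k‖) atTop (𝓝 0) := Iff.rfl

theorem norm_coord_le (a : czero D) (k : ℕ) : ‖(a : Big D) k‖ ≤ ‖a‖ :=
  lp.norm_apply_le_norm ENNReal.top_ne_zero (a : Big D) k

theorem isClosed_czero : IsClosed ((czero D : NonUnitalSubalgebra ℂ (Big D)) : Set (Big D)) := by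
  apply IsSeqClosed.isClosed
  intro x y hx hxy
  show Tendsto (fun k => ‖y k‖) atTop (𝓝 0)
  rw [Metric.tendsto_atTop]
  intro ε hε
  obtain ⟨n, hn⟩ := (Metric.tendsto_atTop.mp hxy) (ε / 2) (by positivity)
  have hn' := hn n le_rfl
  rw [dist_eq_norm] at hn'
  have hxn : Tendsto (fun k => ‖(x n) k‖) atTop (𝓝 0) := hx n
  obtain ⟨m, hm⟩ := (Metric.tendsto_atTop.mp hxn) (ε / 2) (by positivity)
  refine ⟨m, fun k hk => ?_⟩
  have h1 := hm k hk
  rw [Real.dist_eq, sub_zero, abs_of_nonneg (norm_nonneg _)] at h1 ⊢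
  have h2 : ‖(x n - y) k‖ ≤ ‖x n - y‖ := lp.norm_apply_le_norm ENNReal.top_ne_zero (x n - y) k
  have h3 : y k = (x n) k - (x n - y) k := by
    rw [lp.coeFn_sub, Pi.sub_apply]
    abel
  rw [h3]
  exact lt_of_le_of_lt (norm_sub_le _ _) (by linarith)

noncomputable instance instRingCzero : NonUnitalNormedCommRing (czero D) :=
  NonUnitalSubalgebra.nonUnitalNormedCommRing (czero D)

noncomputable instance instModuleCzero : Module ℂ (czero D) :=
  NonUnitalSubalgebra.instModule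

noncomputable instance instSpaceCzero : NormedSpace ℂ (czero D) :=
  { instModuleCzero with
    norm_smul_le := fun c a => norm_smul_le c (a : Big D) }

instance instTowerCzero : IsScalarTower ℂ (czero D) (czero D) :=
  ⟨fun r f g => Subtype.ext (smul_mul_assoc r (f : Big D) (g : Big D))⟩

instance instCommCzero : SMulCommClass ℂ (czero D) (czero D) :=
  ⟨fun r f g => Subtype.ext (mul_smul_comm r (f : Big D) (g : Big D)).symm⟩

instance instCompleteCzero : CompleteSpace (czero D) :=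
  (isClosed_czero (D := D)).completeSpace_coe

/-- The element supported at one index. -/
noncomputable def sing (k : ℕ) (f : Alg (D k)) : czero D :=
  ⟨lp.single ∞ k f, by
    rw [mem_czero]
    apply tendsto_const_nhds.congr'
    filter_upwards [eventually_gt_atTop k] with j hj
    rw [lp.single_apply_ne _ _ _ (by omega : j ≠ k), norm_zero]⟩

theorem sing_self (k : ℕ) (f : Alg (D k)) : ((sing k f : czero D) : Big D) k = f :=
  lp.single_apply_self _ _ _

theorem sing_ne (k : ℕ) (f : Alg (D k)) {j : ℕ} (hj : j ≠ k) :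
    ((sing k f : czero D) : Big D) j = 0 :=
  lp.single_apply_ne _ _ _ hj

theorem ext_czero {a b : czero D} (h : ∀ k, (a : Big D) k = (b : Big D) k) : a = b :=
  Subtype.ext (lp.ext (funext h))

theorem norm_le_of_coord {a : czero D} {C : ℝ} (hC : 0 ≤ C) (h : ∀ k, ‖(a : Big D) k‖ ≤ C) :
    ‖a‖ ≤ C :=
  lp.norm_le_of_forall_le hC h


theorem mul_coord (a b : czero D) (k : ℕ) :
    ((a * b : czero D) : Big D) k = (a : Big D) k * (b : Big D) k := rfl

theorem smul_coord (c : ℂ) (a : czero D) (k : ℕ) :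
    ((c • a : czero D) : Big D) k = c • (a : Big D) k := rfl

theorem sub_coord (a b : czero D) (k : ℕ) :
    ((a - b : czero D) : Big D) k = (a : Big D) k - (b : Big D) k := rfl

theorem add_coord (a b : czero D) (k : ℕ) :
    ((a + b : czero D) : Big D) k = (a : Big D) k + (b : Big D) k := rfl

theorem sum_coord {ι : Type} (t : Finset ι) (a : ι → czero D) (k : ℕ) :
    ((∑ i ∈ t, a i : czero D) : Big D) k = ∑ i ∈ t, (a i : Big D) k := by
  classical
  induction t using Finset.induction_on with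
  | empty => simp
  | insert i t hi ih =>
    rw [Finset.sum_insert hi, Finset.sum_insert hi, add_coord, ih]

/-- The point mass in the finite algebra. -/
noncomputable def pm (k : ℕ) (s : Pt (D k)) : Alg (D k) := by
  classical
  exact fun t => if t = s then 1 else 0

theorem mul_pm (k : ℕ) (s : Pt (D k)) (f : Alg (D k)) : f * pm k s = (f s) • pm k s := by
  classical
  funext t
  show f t * (if t = s then 1 else 0) = f s * (if t = s then 1 else 0)
  by_cases h : t = s
  · rw [h]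
  · rw [if_neg h, mul_zero, mul_zero]

theorem eq_sum_pm (k : ℕ) (f : Alg (D k)) : f = ∑ s : Pt (D k), (f s) • pm k s := by
  classical
  funext t
  have h : (∑ s : Pt (D k), (f s) • pm k s) t = ∑ s : Pt (D k), ((f s) • pm k s) t :=
    Finset.sum_apply t Finset.univ (fun s => ((f s) • pm k s : Pt (D k) → ℂ))
  have h2 : ∀ s : Pt (D k), ((f s) • pm k s) t = if t = s then f s else (0 : ℂ) := by
    intro s
    show f s * (if t = s then 1 else 0) = _
    by_cases h : t = s
    · simp [h]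
    · simp [h]
  have h3 : ∑ s : Pt (D k), (if t = s then f s else (0 : ℂ)) = f t := by
    rw [Finset.sum_ite_eq, if_pos (Finset.mem_univ t)]
  exact (h.trans ((Finset.sum_congr rfl fun s _ => h2 s).trans h3)).symm

/-- The idempotents of the big algebra. -/
noncomputable def idem (k : ℕ) (s : Pt (D k)) : czero D := sing k (pm k s)

theorem mul_idem (a : czero D) (k : ℕ) (s : Pt (D k)) :
    a * idem k s = (((a : Big D) k) s) • idem k s := by
  apply ext_czero
  intro j
  rw [mul_coord, smul_coord]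
  by_cases h : j = k
  · subst h
    rw [idem, sing_self]
    exact mul_pm j s _
  · rw [idem, sing_ne k _ h, mul_zero, smul_zero]

theorem sing_eq_sum (k : ℕ) (f : Alg (D k)) : sing k f = ∑ s : Pt (D k), (f s) • idem k s := by
  apply ext_czero
  intro j
  rw [sum_coord]
  by_cases h : j = k
  · subst h
    rw [sing_self]
    refine (eq_sum_pm j f).trans (Finset.sum_congr rfl fun s _ => ?_)
    rw [smul_coord, idem, sing_self]
  · rw [sing_ne k _ h]
    refine (Finset.sum_eq_zero fun s _ => ?_).symm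
    rw [smul_coord, idem, sing_ne k _ h, smul_zero]

theorem char_eval (φ : WeakDual.characterSpace ℂ (czero D)) (k : ℕ) (s : Pt (D k))
    (h : φ (idem k s) ≠ 0) (a : czero D) : φ a = ((a : Big D) k) s := by
  have h1 : φ (a * idem k s) = φ a * φ (idem k s) := map_mul φ _ _
  rw [mul_idem, map_smul, smul_eq_mul] at h1
  exact (mul_right_cancel₀ h h1).symm

theorem char_exists (φ : WeakDual.characterSpace ℂ (czero D)) :
    ∃ (k : ℕ) (s : Pt (D k)), φ (idem k s) ≠ 0 := by
  by_contra hcon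
  push Not at hcon
  have hsing : ∀ (k : ℕ) (f : Alg (D k)), φ (sing k f) = 0 := by
    intro k f
    rw [sing_eq_sum, map_sum]
    refine Finset.sum_eq_zero fun s _ => ?_
    rw [map_smul, hcon k s, smul_zero]
  apply φ.2.1
  apply ContinuousLinearMap.ext
  intro a
  show (WeakDual.CharacterSpace.toCLM φ) a = 0
  set L := WeakDual.CharacterSpace.toCLM φ with hL
  have hbound : ∀ ε : ℝ, 0 < ε → ‖L a‖ ≤ ‖L‖ * ε := by
    intro ε hε
    have ha : Tendsto (fun k => ‖(a : Big D) k‖) atTop (𝓝 0) := a.2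
    obtain ⟨n, hn⟩ := (Metric.tendsto_atTop.mp ha) ε hε
    let b : czero D := ∑ k ∈ Finset.range n, sing k ((a : Big D) k)
    have hb : L b = 0 := by
      show φ b = 0
      rw [map_sum]
      exact Finset.sum_eq_zero fun k _ => hsing k _
    have hbc : ∀ j, (b : Big D) j = if j < n then (a : Big D) j else 0 := by
      intro j
      show ((∑ k ∈ Finset.range n, sing k ((a : Big D) k) : czero D) : Big D) j = _
      rw [sum_coord]
      by_cases h : j < n
      · rw [if_pos h, Finset.sum_eq_single j]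
        · exact sing_self _ _
        · intro k _ hk
          exact sing_ne _ _ hk.symm
        · intro hh
          exact absurd (Finset.mem_range.mpr h) hh
      · rw [if_neg h]
        refine Finset.sum_eq_zero fun k hk => ?_
        have := Finset.mem_range.mp hk
        exact sing_ne _ _ (by omega)
    have h2 : ‖a - b‖ ≤ ε := by
      apply norm_le_of_coord hε.le
      intro j
      rw [sub_coord, hbc]
      by_cases h : j < n
      · rw [if_pos h, sub_self, norm_zero]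
        exact hε.le
      · rw [if_neg h, sub_zero]
        have h3 := hn j (by omega)
        rw [Real.dist_eq, sub_zero, abs_of_nonneg (norm_nonneg _)] at h3
        exact h3.le
    calc ‖L a‖ = ‖L (a - b)‖ := by rw [map_sub, hb, sub_zero]
      _ ≤ ‖L‖ * ‖a - b‖ := L.le_opNorm _
      _ ≤ ‖L‖ * ε := mul_le_mul_of_nonneg_left h2 (norm_nonneg _)
  have hlim : ‖L a‖ ≤ 0 := by
    have ht : Tendsto (fun ε : ℝ => ‖L‖ * ε) (𝓝[>] 0) (𝓝 (‖L‖ * 0)) :=
      ((continuous_const.mul continuous_id).tendsto 0).mono_left nhdsWithin_le_nhds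
    rw [mul_zero] at ht
    refine ge_of_tendsto ht ?_
    filter_upwards [self_mem_nhdsWithin] with ε hε
    exact hbound ε hε
  exact norm_le_zero_iff.mp hlim

theorem char_unique (φ ψ : WeakDual.characterSpace ℂ (czero D)) (k : ℕ) (s : Pt (D k))
    (h1 : φ (idem k s) ≠ 0) (h2 : ψ (idem k s) ≠ 0) : ψ = φ := by
  apply WeakDual.CharacterSpace.ext
  intro a
  rw [char_eval φ k s h1, char_eval ψ k s h2]

theorem discrete_char : DiscreteTopology (WeakDual.characterSpace ℂ (czero D)) := by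
  rw [discreteTopology_iff_isOpen_singleton]
  intro φ
  obtain ⟨k, s, h⟩ := char_exists φ
  have h1 : ({φ} : Set (WeakDual.characterSpace ℂ (czero D))) =
      (fun ψ : WeakDual.characterSpace ℂ (czero D) => ψ (idem k s)) ⁻¹' {0}ᶜ := by
    ext ψ
    simp only [Set.mem_singleton_iff, Set.mem_preimage, Set.mem_compl_iff]
    constructor
    · intro h3
      rw [h3]
      exact h
    · intro h3
      exact char_unique φ ψ k s h h3
  rw [h1]
  apply IsOpen.preimage _ isOpen_compl_singleton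
  exact (WeakDual.eval_continuous (idem k s)).comp continuous_subtype_val

theorem regular_char (F : Set (WeakDual.characterSpace ℂ (czero D)))
    (φ₀ : WeakDual.characterSpace ℂ (czero D)) (h : φ₀ ∉ F) :
    ∃ a : czero D, (∀ φ ∈ F, φ a = 0) ∧ φ₀ a ≠ 0 := by
  obtain ⟨k, s, hks⟩ := char_exists φ₀
  refine ⟨idem k s, ?_, hks⟩
  intro φ hφ
  by_contra h3
  have := char_unique φ₀ φ k s hks h3
  rw [this] at hφ
  exact h hφ

theorem tuples_czero {n : ℕ} {C : ℝ} (hC0 : 0 ≤ C) (hC : ∀ k, (1 + (D k).η) ^ 3 ≤ C) (h : ∀ k, n ≤ (D k).m ∨ (D k).K ≤ C)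
    (a : Fin n → czero D) : ∃ (b : czero D) (c : Fin n → czero D),
      ∀ i, a i = b * c i ∧ ‖b‖ * ‖c i‖ ≤ C * ‖a i‖ := by
  have hex : ∀ k, ∃ (b : Alg (D k)) (c : Fin n → Alg (D k)), ‖b‖ ≤ 1 ∧
      ∀ i, (a i : Big D) k = b * c i ∧ ‖c i‖ ≤ C * ‖(a i : Big D) k‖ :=
    fun k => tuple_factor_const (D := D k) (hC k) (h k) (fun i => (a i : Big D) k)
  choose b' d hb' hd using hex
  let τ : ℕ → ℝ := fun k => ‖(fun i => ‖(a i : Big D) k‖ / ‖a i‖ : Fin n → ℝ)‖
  have hτ0 : ∀ k, 0 ≤ τ k := fun k => norm_nonneg _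
  have hτ1 : ∀ k, τ k ≤ 1 := by
    intro k
    refine (pi_norm_le_iff_of_nonneg zero_le_one).2 fun i => ?_
    rw [Real.norm_of_nonneg (by positivity)]
    exact div_le_one_of_le₀ (norm_coord_le (a i) k) (norm_nonneg _)
  have hτlim : Tendsto τ atTop (𝓝 0) := by
    have h1 : Tendsto (fun k => (fun i => ‖(a i : Big D) k‖ / ‖a i‖ : Fin n → ℝ)) atTop
        (𝓝 (0 : Fin n → ℝ)) := by
      rw [tendsto_pi_nhds]
      intro i
      have h2 : Tendsto (fun k => ‖(a i : Big D) k‖) atTop (𝓝 0) := (a i).2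
      have h3 := h2.div_const ‖a i‖
      rwa [zero_div] at h3
    have h4 := h1.norm
    rwa [norm_zero] at h4
  have hle : ∀ i k, ‖(a i : Big D) k‖ ≤ τ k * ‖a i‖ := by
    intro i k
    rcases (norm_nonneg (a i)).eq_or_lt with h0 | h0
    · have := norm_coord_le (a i) k
      rw [← h0] at this ⊢
      rw [mul_zero]
      exact this
    · rw [← div_le_iff₀ h0]
      have h5 := norm_le_pi_norm (fun i => ‖(a i : Big D) k‖ / ‖a i‖ : Fin n → ℝ) i
      exact (le_abs_self _).trans h5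
  let σ : ℕ → ℝ := fun k => Real.sqrt (τ k)
  have hσ0 : ∀ k, 0 ≤ σ k := fun k => Real.sqrt_nonneg _
  have hσ1 : ∀ k, σ k ≤ 1 := fun k => by
    have := Real.sqrt_le_sqrt (hτ1 k)
    rwa [Real.sqrt_one] at this
  have hσlim : Tendsto σ atTop (𝓝 0) := by
    have := (Real.continuous_sqrt.tendsto 0).comp hτlim
    rwa [Real.sqrt_zero] at this
  have hσsq : ∀ k, σ k * σ k = τ k := fun k => Real.mul_self_sqrt (hτ0 k)
  -- the factors
  have hbn : ∀ k, ‖((σ k : ℂ) • b' k : Alg (D k))‖ ≤ 1 * σ k := by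
    intro k
    rw [norm_smul, Complex.norm_real, Real.norm_of_nonneg (hσ0 k)]
    nlinarith [hb' k, hσ0 k]
  have hcn : ∀ i k, ‖(((σ k)⁻¹ : ℝ) : ℂ) • d k i‖ ≤ C * ‖a i‖ * σ k := by
    intro i k
    rw [norm_smul, Complex.norm_real, Real.norm_of_nonneg (inv_nonneg.mpr (hσ0 k))]
    calc (σ k)⁻¹ * ‖d k i‖ ≤ (σ k)⁻¹ * (C * (τ k * ‖a i‖)) :=
          mul_le_mul_of_nonneg_left ((hd k i).2.trans
            (mul_le_mul_of_nonneg_left (hle i k) hC0)) (inv_nonneg.mpr (hσ0 k))
      _ = C * ‖a i‖ * ((σ k)⁻¹ * (σ k * σ k)) := by rw [hσsq]; ring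
      _ ≤ C * ‖a i‖ * σ k := by
          refine mul_le_mul_of_nonneg_left ?_ (by positivity)
          rcases (hσ0 k).eq_or_lt with h0 | h0
          · rw [← h0]; simp
          · rw [← mul_assoc, inv_mul_cancel₀ h0.ne', one_mul]
  have hmk : ∀ (x : ∀ k, Alg (D k)) (C : ℝ), (∀ k, ‖x k‖ ≤ C * σ k) →
      ∃ y : czero D, ∀ k, (y : Big D) k = x k := by
    intro x C hx
    have hC0 : ∀ k, ‖x k‖ ≤ |C| * σ k := fun k =>
      (hx k).trans (mul_le_mul_of_nonneg_right (le_abs_self C) (hσ0 k))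
    have hmem : Memℓp x ∞ := by
      apply memℓp_infty
      refine ⟨|C|, ?_⟩
      rintro _ ⟨k, rfl⟩
      exact (hC0 k).trans (mul_le_of_le_one_right (abs_nonneg C) (hσ1 k))
    refine ⟨⟨⟨x, hmem⟩, ?_⟩, fun k => rfl⟩
    have h3 := hσlim.const_mul |C|
    rw [mul_zero] at h3
    exact squeeze_zero (fun k => norm_nonneg _) hC0 h3
  obtain ⟨b, hb⟩ := hmk (fun k => (σ k : ℂ) • b' k) 1 hbn
  choose c hc using fun i => hmk (fun k => (((σ k)⁻¹ : ℝ) : ℂ) • d k i) (C * ‖a i‖) (hcn i)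
  have hnb : ‖b‖ ≤ 1 := by
    apply norm_le_of_coord (by norm_num)
    intro k
    rw [hb]
    exact (hbn k).trans (by linarith [hσ1 k])
  have hnc : ∀ i, ‖c i‖ ≤ C * ‖a i‖ := by
    intro i
    apply norm_le_of_coord (by positivity)
    intro k
    rw [hc i k]
    exact (hcn i k).trans (mul_le_of_le_one_right (by positivity) (hσ1 k))
  refine ⟨b, c, fun i => ⟨?_, ?_⟩⟩
  · apply ext_czero
    intro k
    rw [mul_coord, hb, hc i k]
    rcases (hσ0 k).eq_or_lt with h0 | h0
    · have h4 : τ k = 0 := by rw [← hσsq, ← h0, mul_zero]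
      have h5 := hle i k
      rw [h4, zero_mul] at h5
      rw [norm_le_zero_iff.mp h5, ← h0]
      simp
    · rw [smul_mul_smul_comm, (hd k i).1]
      have h6 : ((σ k : ℝ) : ℂ) * (((σ k)⁻¹ : ℝ) : ℂ) = 1 := by
        rw [← Complex.ofReal_mul, mul_inv_cancel₀ h0.ne', Complex.ofReal_one]
      rw [h6, one_smul]
  · calc ‖b‖ * ‖c i‖ ≤ 1 * (C * ‖a i‖) := mul_le_mul hnb (hnc i) (norm_nonneg _) (by norm_num)
      _ = _ := one_mul _

theorem no_bai_aux {ι : Type*} {l : Filter ι} [l.NeBot] (e : ι → czero D) (C : ℝ)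
    (hC : ∀ i, ‖e i‖ ≤ C) (he : ∀ a, Tendsto (fun i => ‖a - e i * a‖) l (𝓝 0)) (k : ℕ) :
    (D k).K ≤ C := by
  have h1 := he (sing k 1)
  have h2 : ∀ i, (D k).K ≤ C + ‖sing k (1 : Alg (D k)) - e i * sing k 1‖ := by
    intro i
    have h3 := norm_coord_le (sing k (1 : Alg (D k)) - e i * sing k 1) k
    rw [sub_coord, mul_coord, sing_self, mul_one] at h3
    have h4 : (D k).K ≤ ‖(1 : Alg (D k))‖ := K_le_N_one
    have h5 : ‖(1 : Alg (D k))‖ ≤ ‖(1 : Alg (D k)) - (e i : Big D) k‖ + ‖(e i : Big D) k‖ := by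
      calc ‖(1 : Alg (D k))‖ = ‖((1 : Alg (D k)) - (e i : Big D) k) + (e i : Big D) k‖ := by
            rw [sub_add_cancel]
        _ ≤ _ := norm_add_le _ _
    have h6 := norm_coord_le (e i) k
    linarith [hC i]
  have h3 := (tendsto_const_nhds (x := C)).add h1
  rw [add_zero] at h3
  exact ge_of_tendsto' h3 h2

end CZero

end Pool.Agent.Y644.FB
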